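import Pool.Agent.Y63.NV.Stm5
import Pool.Agent.Y63.NV.Wblk930
import Pool.Agent.Y177.NV.Filta
import Pool.Agent.Y824.NV.LQ
import Pool.Agent.Y930.NV.Cen
import Pool.Agent.Y705.NV.Schur
import Pool.Agent.Y286.NV.Fin

/-!
# Brauer induction of blocks from the stabilisers of chains of `p`-subgroups

The part `S_KBLK` of `Pool/Agent/Y63/NV/Stm5.lean`.
-/

set_option autoImplicit false

open scoped Classical

noncomputable section

namespace Pool.Agent.R674.KB

open Pool.Agent.Y63.NV
open Pool.Agent.Y63.AWC (IsIrreducibleCharacter)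
open Pool.Agent.Y63.KR (IsPChain chainStabilizer conjSub)

section blk

variable {F : Type} [Field F] {J : Type} [Group J]

theorem isClassFun_one : IsClassFun (Pi.single (1 : J) (1 : F) : J → F) := by
  intro g x
  by_cases hx : x = 1
  · subst hx
    simp
  · rw [Pi.single_eq_of_ne hx, Pi.single_eq_of_ne]
    intro h
    apply hx
    have h1 : g * x * g⁻¹ = 1 := h
    have h2 : x = g⁻¹ * (g * x * g⁻¹) * g := by group
    rw [h2, h1]
    group

theorem conv_one_left [Finite J] (w : J → F) : conv (Pi.single (1 : J) (1 : F)) w = w := by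
  funext x
  unfold conv
  rw [finsum_eq_single _ (1 : J)]
  · simp
  · intro y hy
    rw [Pi.single_eq_of_ne hy, zero_mul]

theorem conv_add_left [Finite J] (a b w : J → F) : conv (a + b) w = conv a w + conv b w := by
  funext x
  unfold conv
  rw [Pi.add_apply, ← finsum_add_distrib (Set.toFinite _) (Set.toFinite _)]
  refine finsum_congr fun y => ?_
  rw [Pi.add_apply, add_mul]

theorem conv_smul_left [Finite J] (c : F) (a w : J → F) : conv (c • a) w = c • conv a w := by
  funext x
  unfold conv
  rw [Pi.smul_apply, smul_finsum' c (Set.toFinite _)]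
  refine finsum_congr fun y => ?_
  rw [Pi.smul_apply, smul_eq_mul, smul_eq_mul, mul_assoc]

/-- convolution with `h` on the left -/
def cL [Finite J] (h : J → F) : (J → F) →ₗ[F] (J → F) where
  toFun w := conv h w
  map_add' a b := by
    funext x
    unfold conv
    rw [Pi.add_apply, ← finsum_add_distrib (Set.toFinite _) (Set.toFinite _)]
    refine finsum_congr fun y => ?_
    rw [Pi.add_apply, mul_add]
  map_smul' c a := by
    funext x
    unfold conv
    rw [Pi.smul_apply, RingHom.id_apply, smul_finsum' c (Set.toFinite _)]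
    refine finsum_congr fun y => ?_
    rw [Pi.smul_apply, smul_eq_mul, smul_eq_mul]
    ring

theorem cL_apply [Finite J] (h w : J → F) : cL h w = conv h w := rfl

/-- class functions -/
def CFs (J F : Type) [Group J] [Field F] : Submodule F (J → F) where
  carrier := {f | IsClassFun f}
  zero_mem' := fun _ _ => rfl
  add_mem' := fun {a b} ha hb g x => by rw [Pi.add_apply, Pi.add_apply, ha g x, hb g x]
  smul_mem' := fun c a ha g x => by rw [Pi.smul_apply, Pi.smul_apply, ha g x]

/-- left translation -/
def tL (q : J) : (J → F) →ₗ[F] (J → F) where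
  toFun w := fun x => w (q⁻¹ * x)
  map_add' _ _ := rfl
  map_smul' _ _ := rfl

theorem tL_apply (q : J) (w : J → F) (x : J) : tL q w x = w (q⁻¹ * x) := rfl

theorem tL_conv [Finite J] {h : J → F} (hh : IsClassFun h) (q : J) (w : J → F) :
    conv h (tL q w) = tL q (conv h w) := by
  funext x
  rw [tL_apply]
  unfold conv
  symm
  rw [← finsum_comp_equiv (MulAut.conj q⁻¹).toEquiv]
  refine finsum_congr fun y => ?_
  have e : (MulAut.conj q⁻¹).toEquiv y = q⁻¹ * y * q := by simp
  rw [e, tL_apply]
  have h1 : h (q⁻¹ * y * q) = h y := by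
    have := hh q⁻¹ y
    rwa [inv_inv] at this
  rw [h1]
  congr 2
  group

/-- a block vanishes at the class functions which vanish on the centraliser of a normal
`p`-subgroup -/
theorem blk_zero {p : ℕ} [Fact p.Prime] [CharP F p] [Finite J] {Q : Subgroup J} [hQn : Q.Normal]
    (hQ : IsPGroup p Q) {B : (J → F) → F} (hB : IsBlock B) {h : J → F} (hh : IsClassFun h)
    (h0 : ∀ x ∈ Subgroup.centralizer (Q : Set J), h x = 0) : B h = 0 := by
  have : Fintype J := Fintype.ofFinite J
  set c := B h with hc
  -- the eigenspace
  let E : Submodule F (J → F) :=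
    { carrier := {w | conv h w = c • w}
      zero_mem' := by
        change cL h 0 = c • 0
        rw [map_zero, smul_zero]
      add_mem' := fun {a b} ha hb => by
        change cL h (a + b) = c • (a + b)
        rw [map_add, smul_add]
        exact congrArg₂ (· + ·) ha hb
      smul_mem' := fun r a ha => by
        change cL h (r • a) = c • (r • a)
        rw [map_smul, smul_comm]
        exact congrArg (fun t => r • t) ha }
  have hE : ∀ w, w ∈ E ↔ conv h w = c • w := fun w => Iff.rfl
  have hne : E ≠ ⊥ := by
    intro hbot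
    -- the operator on class functions
    let S : CFs J F →ₗ[F] CFs J F :=
      { toFun := fun w => ⟨conv h w.1 - c • w.1, by
          exact (CFs J F).sub_mem (Pool.Agent.Y705.NV.conv_classFun hh w.2)
            ((CFs J F).smul_mem c w.2)⟩
        map_add' := fun a b => by
          apply Subtype.ext
          change cL h (a.1 + b.1) - c • (a.1 + b.1) = (cL h a.1 - c • a.1) + (cL h b.1 - c • b.1)
          rw [map_add, smul_add]
          abel
        map_smul' := fun r a => by
          apply Subtype.ext
          change cL h (r • a.1) - c • (r • a.1) = r • (cL h a.1 - c • a.1)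
          rw [map_smul, smul_sub, smul_comm r c] }
    have hinj : Function.Injective S := by
      rw [injective_iff_map_eq_zero]
      intro w hw
      have h1 : conv h w.1 - c • w.1 = 0 := congrArg Subtype.val hw
      have h2 : w.1 ∈ E := (hE _).2 (sub_eq_zero.1 h1)
      rw [hbot, Submodule.mem_bot] at h2
      exact Subtype.ext h2
    have hsurj : Function.Surjective S := (LinearMap.injective_iff_surjective).1 hinj
    obtain ⟨g, hg⟩ := hsurj ⟨Pi.single (1 : J) (1 : F), isClassFun_one⟩
    have h1 : conv h g.1 + (-c) • g.1 = Pi.single (1 : J) (1 : F) := by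
      have h2 : conv h g.1 - c • g.1 = Pi.single (1 : J) (1 : F) := congrArg Subtype.val hg
      rw [← h2, neg_smul, sub_eq_add_neg]
    have h2 : B (conv h g.1 + (-c) • g.1) = 0 := by
      rw [hB.add _ _ (Pool.Agent.Y705.NV.conv_classFun hh g.2) ((CFs J F).smul_mem (-c) g.2),
        hB.mul _ _ hh g.2, hB.smul _ _ g.2, ← hc]
      ring
    rw [h1, hB.one] at h2
    exact one_ne_zero h2
  -- the action of `Q`
  have hEt : ∀ q : J, ∀ w ∈ E, tL q w ∈ E := by
    intro q w hw
    rw [hE] at hw ⊢
    rw [tL_conv hh, hw, map_smul]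
  let ρ : Representation F Q E :=
    { toFun := fun q => (tL (q : J)).restrict (hEt q)
      map_one' := by
        ext w x
        change w.1 (((1 : Q) : J)⁻¹ * x) = w.1 x
        simp
      map_mul' := fun a b => by
        ext w x
        change w.1 (((a * b : Q) : J)⁻¹ * x) = w.1 ((b : J)⁻¹ * ((a : J)⁻¹ * x))
        congr 1
        rw [Subgroup.coe_mul, mul_inv_rev, mul_assoc] }
  have : Nontrivial E := Submodule.nontrivial_iff_ne_bot.2 hne
  obtain ⟨w, hw0, hw⟩ := Pool.Agent.Y824.NV.fixed_vector hQ ρ
  have hw' : ∀ q ∈ Q, ∀ x, w.1 (q * x) = w.1 x := by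
    intro q hq x
    have h1 := congrArg (fun t : E => t.1 x) (hw ⟨q⁻¹, Q.inv_mem hq⟩)
    change w.1 ((q⁻¹)⁻¹ * x) = w.1 x at h1
    rwa [inv_inv] at h1
  have h1 : conv h w.1 = 0 := by
    funext x
    unfold conv
    refine Pool.Agent.Y177.NV.sum_conj_eq_zero hQ _ (fun r hr y => ?_) fun y hy => ?_
    · rw [hh r y]
      congr 1
      have h2 : (r * y * r⁻¹)⁻¹ * x = (r * (y⁻¹ * r⁻¹ * y⁻¹⁻¹)) * (y⁻¹ * x) := by group
      rw [h2]
      apply hw'
      exact Q.mul_mem hr (hQn.conj_mem _ (Q.inv_mem hr) _)
    · rw [h0 y, zero_mul]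
      rw [Subgroup.mem_centralizer_iff]
      exact hy
  have h2 : c • w.1 = 0 := by rw [← (hE _).1 w.2, h1]
  rcases smul_eq_zero.1 h2 with h3 | h3
  · exact h3
  · exact absurd (Subtype.ext h3) hw0

theorem cut_class {Q : Subgroup J} [hQn : Q.Normal] {f : J → F} (hf : IsClassFun f) :
    IsClassFun (cut f (Subgroup.centralizer (Q : Set J))) := by
  intro g x
  unfold cut
  have e : g * x * g⁻¹ ∈ Subgroup.centralizer (Q : Set J) ↔
      x ∈ Subgroup.centralizer (Q : Set J) := by
    have := (inferInstance : (Subgroup.centralizer (Q : Set J)).Normal)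
    constructor
    · intro h
      have h1 := this.conj_mem _ h g⁻¹
      have h2 : g⁻¹ * (g * x * g⁻¹) * g⁻¹⁻¹ = x := by group
      rwa [h2] at h1
    · intro h
      exact this.conj_mem _ h g
  simp only [e]
  split_ifs
  · exact hf g x
  · rfl

theorem blk_cut {p : ℕ} [Fact p.Prime] [CharP F p] [Finite J] {Q : Subgroup J} [hQn : Q.Normal]
    (hQ : IsPGroup p Q) {B : (J → F) → F} (hB : IsBlock B) {f : J → F} (hf : IsClassFun f) :
    B f = B (cut f (Subgroup.centralizer (Q : Set J))) := by
  have h1 : IsClassFun (f + (-1 : F) • cut f (Subgroup.centralizer (Q : Set J))) :=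
    (CFs J F).add_mem hf ((CFs J F).smul_mem (-1) (cut_class hf))
  have h2 := blk_zero hQ hB h1 (fun x hx => by
    rw [Pi.add_apply, Pi.smul_apply, smul_eq_mul]
    unfold cut
    rw [if_pos hx]
    ring)
  rw [hB.add _ _ hf ((CFs J F).smul_mem (-1) (cut_class hf)), hB.smul _ _ (cut_class hf)] at h2
  linear_combination h2

end blk

/-- Brauer induction of blocks of the normaliser of a `p`-subgroup -/
theorem blk_up {p : ℕ} [Fact p.Prime] {F : Type} [Field F] [CharP F p] {G : Type} [Group G]
    [Finite G] {Q : Subgroup G} (hQ : IsPGroup p Q) {N : Subgroup G}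
    (hN : N = Subgroup.normalizer (Q : Set G)) {B : (N → F) → F} (hblk : IsBlock B) :
    IsBlock (fun f : G → F => B (fun x => f x)) := by
  have : Fintype G := Fintype.ofFinite G
  have hQN : Q ≤ N := hN ▸ Subgroup.le_normalizer
  set QJ := Q.subgroupOf N with hQJ
  have hnorm : QJ.Normal := by
    rw [hQJ]
    subst hN
    exact Subgroup.normal_in_normalizer
  have hpg : IsPGroup p QJ := by
    rw [hQJ]
    exact hQ.comap_subtype
  have hres : ∀ f : G → F, IsClassFun f → IsClassFun (fun x : N => f x) := by
    intro f hf g x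
    exact hf g x
  have hcut : ∀ f : G → F, IsClassFun f →
      IsClassFun (cut (fun x : N => f x) (Subgroup.centralizer (QJ : Set N))) :=
    fun f hf => cut_class (hres f hf)
  have hval : ∀ f : G → F, IsClassFun f → B (fun x => f x) =
      B (cut (fun x : N => f x) (Subgroup.centralizer (QJ : Set N))) :=
    fun f hf => blk_cut hpg hblk (hres f hf)
  refine ⟨?_, ?_, ?_, ?_⟩
  · intro f g hf hg
    exact hblk.add (fun x : N => f x) (fun x : N => g x) (hres f hf) (hres g hg)
  · intro a f hf
    exact hblk.smul a (fun x : N => f x) (hres f hf)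
  · have e : (fun x : N => (Pi.single (1 : G) (1 : F) : G → F) x) = Pi.single (1 : N) (1 : F) := by
      funext x
      by_cases hx : x = 1
      · subst hx
        simp
      · rw [Pi.single_eq_of_ne hx, Pi.single_eq_of_ne]
        intro h
        exact hx (Subtype.ext h)
    show B (fun x : N => (Pi.single (1 : G) (1 : F) : G → F) x) = 1
    rw [e]
    refine Eq.trans (congrArg B ?_) hblk.one
    funext x
    unfold Pi.single Function.update
    by_cases hx : x = 1
    · rw [dif_pos hx, dif_pos hx]
    · rw [dif_neg hx, dif_neg hx]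
  · intro f g hf hg
    have hconv : IsClassFun (conv f g) := Pool.Agent.Y705.NV.conv_classFun hf hg
    show B (fun x : N => conv f g x) = B (fun x : N => f x) * B (fun x : N => g x)
    rw [hval _ hconv, hval f hf, hval g hg, ← hblk.mul _ _ (hcut f hf) (hcut g hg)]
    congr 1
    funext x
    unfold conv
    rw [finsum_eq_sum_of_fintype]
    by_cases hx : x ∈ Subgroup.centralizer (QJ : Set N)
    · unfold cut
      rw [if_pos hx]
      show ∑ᶠ y : G, f y * g (y⁻¹ * x) = ∑ y : N,
        (if y ∈ Subgroup.centralizer (QJ : Set N) then f y else 0) *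
          if y⁻¹ * x ∈ Subgroup.centralizer (QJ : Set N) then g ((y⁻¹ * x : N) : G) else 0
      rw [finsum_eq_sum_of_fintype]
      let _ : MulAction Q G := MulAction.compHom G (MulAut.conj.comp Q.subtype)
      have hact : ∀ (q : Q) (y : G), q • y = (q : G) * y * (q : G)⁻¹ := fun q y => rfl
      have hxq : ∀ q ∈ Q, q * (x : G) = x * q := by
        intro q hq
        have h3 := Subgroup.mem_centralizer_iff.1 hx ⟨q, hQN hq⟩
          (Subgroup.mem_subgroupOf.2 hq)
        exact congrArg Subtype.val h3
      rw [B930.sum_fixed (p := p) (Q := Q) (Y := G) hQ (fun y => f y * g (y⁻¹ * x)) (by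
        intro q y
        rw [hact]
        have e1 : g (((q : G) * y * (q : G)⁻¹)⁻¹ * x) = g (y⁻¹ * x) := by
          have e2 : ((q : G) * y * (q : G)⁻¹)⁻¹ * x = (q : G) * (y⁻¹ * x) * (q : G)⁻¹ := by
            have e3 : (q : G)⁻¹ * (x : G) = x * (q : G)⁻¹ := by
              have := hxq (q : G)⁻¹ (Q.inv_mem q.2)
              exact this
            rw [mul_inv_rev, mul_inv_rev, inv_inv, mul_assoc, mul_assoc, mul_assoc, mul_assoc, e3]
          rw [e2, hg]
        rw [e1, hf])]
      -- the sum over `J`
      symm
      have key : ∀ y : N, ((if y ∈ Subgroup.centralizer (QJ : Set N) then f y else 0) *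
          if y⁻¹ * x ∈ Subgroup.centralizer (QJ : Set N) then g ((y⁻¹ * x : N) : G) else 0) =
          if y ∈ Subgroup.centralizer (QJ : Set N) then f y * g ((y : G)⁻¹ * x) else 0 := by
        intro y
        by_cases hy : y ∈ Subgroup.centralizer (QJ : Set N)
        · have hyx : y⁻¹ * x ∈ Subgroup.centralizer (QJ : Set N) :=
            Subgroup.mul_mem _ (Subgroup.inv_mem _ hy) hx
          rw [if_pos hy, if_pos hy, if_pos hyx]
          rfl
        · rw [if_neg hy, if_neg hy, zero_mul]
      rw [Finset.sum_congr rfl (fun y _ => key y), ← Finset.sum_filter]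
      refine Finset.sum_bij (fun y _ => (y : G)) ?_ ?_ ?_ ?_
      · intro y hy
        have hy2 := (Finset.mem_filter.1 hy).2
        refine (B930.mem_fx _).2 fun q => ?_
        rw [hact]
        have h3 := Subgroup.mem_centralizer_iff.1 hy2 ⟨q.1, hQN q.2⟩
          (Subgroup.mem_subgroupOf.2 q.2)
        have h4 : (q : G) * (y : G) = y * q := congrArg Subtype.val h3
        rw [h4, mul_inv_cancel_right]
      · intro a _ b _ hab
        exact Subtype.ext hab
      · intro b hb
        have hb2 := (B930.mem_fx _).1 hb
        have hbq : ∀ q ∈ Q, q * b = b * q := by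
          intro q hq
          have := hb2 ⟨q, hq⟩
          rw [hact] at this
          exact mul_inv_eq_iff_eq_mul.1 this
        have hbN : b ∈ N := by
          rw [hN, Subgroup.mem_normalizer_iff]
          intro q
          constructor
          · intro hq
            rw [← hbq q hq, mul_inv_cancel_right]
            exact hq
          · intro hq
            have h4 := hbq _ hq
            have h5 : b * (b * q * b⁻¹) = b * (q * 1) := by
              rw [← h4]
              group
            have h6 := mul_left_cancel h5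
            rw [mul_one] at h6
            rw [← h6]
            exact hq
        refine ⟨⟨b, hbN⟩, ?_, rfl⟩
        refine Finset.mem_filter.2 ⟨Finset.mem_univ _, ?_⟩
        rw [Subgroup.mem_centralizer_iff]
        intro q hq
        exact Subtype.ext (hbq q.1 (Subgroup.mem_subgroupOf.1 hq))
      · intro a _
        rfl
    · unfold cut
      rw [if_neg hx]
      symm
      apply Finset.sum_eq_zero
      intro y _
      by_cases hy : y ∈ Subgroup.centralizer (QJ : Set N)
      · by_cases hyx : y⁻¹ * x ∈ Subgroup.centralizer (QJ : Set N)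
        · exfalso
          apply hx
          have := Subgroup.mul_mem _ hy hyx
          rwa [mul_inv_cancel_left] at this
        · rw [if_neg hyx, mul_zero]
      · rw [if_neg hy, zero_mul]

section chain

variable {p : ℕ} {G : Type} [Group G]

theorem mem_stab {σ : Set (Subgroup G)} {x : G} :
    x ∈ chainStabilizer σ ↔ ∀ P ∈ σ, x ∈ Subgroup.normalizer (P : Set G) := by
  unfold Pool.Agent.Y63.KR.chainStabilizer
  simp only [Subgroup.mem_iInf]

theorem exists_greatest [Finite G] {σ : Set (Subgroup G)} (hc : IsChain (· ≤ ·) σ)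
    (hne : σ.Nonempty) : ∃ Q ∈ σ, ∀ P ∈ σ, P ≤ Q := by
  obtain ⟨Q, hQ, hmax⟩ := Set.Finite.exists_maximalFor (fun P : Subgroup G => Nat.card P) σ
    (Set.toFinite σ) hne
  refine ⟨Q, hQ, fun P hP => ?_⟩
  rcases eq_or_ne P Q with rfl | hne'
  · exact le_rfl
  rcases hc hP hQ hne' with h | h
  · exact h
  · have h1 : Nat.card Q ≤ Nat.card P := Subgroup.card_le_of_le h
    have h2 := hmax hP h1
    exact (Subgroup.eq_of_le_of_card_ge h h2).ge

theorem norm_sub {N P : Subgroup G} (hP : P ≤ N) (x : N) :
    x ∈ Subgroup.normalizer (P.subgroupOf N : Set N) ↔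
      (x : G) ∈ Subgroup.normalizer (P : Set G) := by
  rw [Subgroup.mem_normalizer_iff, Subgroup.mem_normalizer_iff]
  constructor
  · intro h y
    constructor
    · intro hy
      exact (h ⟨y, hP hy⟩).1 hy
    · intro hy
      have h1 : y ∈ N := by
        have h2 := N.mul_mem (N.mul_mem (N.inv_mem x.2) (hP hy)) x.2
        have e : (x : G)⁻¹ * (x * y * (x : G)⁻¹) * x = y := by group
        rwa [e] at h2
      exact (h ⟨y, h1⟩).2 hy
  · intro h y
    exact h y

end chain

section ind

variable {p : ℕ} [Fact p.Prime] {F : Type} [Field F] [IsAlgClosed F] [CharP F p]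

theorem blk_equiv (red : integralClosure ℤ ℂ →+* F) {G K : Type} [Group G] [Finite G] [Group K]
    [Finite K] (i : K →* G) (hi : Function.Bijective i) {χ : K → ℂ}
    (hχ : IsIrreducibleCharacter χ) :
    IsBlock (fun f : G → F => centralValue red χ (fun x => f (i x))) := by
  have hB := Pool.Agent.Y930.NV.cvh F red K χ hχ
  have hres : ∀ f : G → F, IsClassFun f → IsClassFun (fun x : K => f (i x)) := by
    intro f hf g x
    have h1 := hf (i g) (i x)
    simp only [map_mul, map_inv]
    exact h1
  refine ⟨?_, ?_, ?_, ?_⟩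
  · intro f g hf hg
    exact hB.add (fun x : K => f (i x)) (fun x : K => g (i x)) (hres f hf) (hres g hg)
  · intro a f hf
    exact hB.smul a (fun x : K => f (i x)) (hres f hf)
  · refine Eq.trans (congrArg (centralValue red χ) ?_) hB.one
    funext x
    by_cases hx : x = 1
    · subst hx
      simp
    · rw [Pi.single_eq_of_ne hx, Pi.single_eq_of_ne]
      intro h
      exact hx (hi.1 (h.trans (map_one i).symm))
  · intro f g hf hg
    show centralValue red χ (fun x : K => conv f g (i x)) =
      centralValue red χ (fun x : K => f (i x)) * centralValue red χ (fun x : K => g (i x))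
    rw [← hB.mul _ _ (hres f hf) (hres g hg)]
    congr 1
    funext x
    unfold conv
    rw [← finsum_comp_equiv (Equiv.ofBijective i hi)]
    refine finsum_congr fun y => ?_
    simp only [Equiv.ofBijective_apply, map_mul, map_inv]

theorem kblk_aux (red : integralClosure ℤ ℂ →+* F) : ∀ (n : ℕ) (G : Type) [Group G] [Finite G]
    (σ : Set (Subgroup G)), IsPChain p σ → σ.ncard = n → ∀ (K : Type) [Group K] [Finite K]
    (i : K →* G), Function.Injective i → i.range = chainStabilizer σ → ∀ χ : K → ℂ,
    IsIrreducibleCharacter χ →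
    IsBlock (fun f : G → F => centralValue red χ (fun x => f (i x))) := by
  intro n
  induction n with
  | zero =>
    intro G _ _ σ hσ hn K _ _ i hi hr χ hχ
    have h0 : σ = ∅ := (Set.ncard_eq_zero (Set.toFinite σ)).1 hn
    refine blk_equiv red i ⟨hi, ?_⟩ hχ
    rw [← MonoidHom.range_eq_top, hr, h0, eq_top_iff]
    intro x _
    rw [mem_stab]
    intro P hP
    exact absurd hP (Set.notMem_empty P)
  | succ n ih =>
    intro G _ _ σ hσ hn K _ _ i hi hr χ hχ
    have hne : σ.Nonempty := by
      rw [Set.nonempty_iff_ne_empty]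
      rintro rfl
      rw [Set.ncard_empty] at hn
      omega
    obtain ⟨Q, hQ, hmax⟩ := exists_greatest hσ.chain hne
    obtain ⟨N, hN⟩ : ∃ N : Subgroup G, N = Subgroup.normalizer (Q : Set G) := ⟨_, rfl⟩
    have hQN : Q ≤ N := hN ▸ Subgroup.le_normalizer
    have hiN : ∀ x : K, i x ∈ N := by
      intro x
      have h1 : i x ∈ chainStabilizer σ := by
        rw [← hr]
        exact ⟨x, rfl⟩
      rw [hN]
      exact mem_stab.1 h1 Q hQ
    let i' : K →* N := i.codRestrict N hiN
    have hi' : Function.Injective i' := by
      intro a b hab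
      exact hi (congrArg Subtype.val hab)
    let τ : Set (Subgroup N) := (fun P : Subgroup G => P.subgroupOf N) '' (σ \ {Q})
    have hle : ∀ P ∈ σ, P ≤ N := fun P hP => (hmax P hP).trans hQN
    have hτ : IsPChain p τ := by
      refine ⟨?_, ?_, ?_⟩
      · rintro _ ⟨P, hP, rfl⟩ _ ⟨P', hP', rfl⟩ hne'
        have h1 : P ≠ P' := by
          rintro rfl
          exact hne' rfl
        rcases hσ.chain hP.1 hP'.1 h1 with h | h
        · exact Or.inl (Subgroup.comap_mono h)
        · exact Or.inr (Subgroup.comap_mono h)
      · rintro _ ⟨P, hP, rfl⟩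
        exact (hσ.isPGroup P hP.1).comap_subtype
      · rintro _ ⟨P, hP, rfl⟩ h0
        apply hσ.ne_bot P hP.1
        rw [eq_bot_iff]
        intro x hx
        have h1 : (⟨x, hle P hP.1 hx⟩ : N) ∈ P.subgroupOf N := hx
        change P.subgroupOf N = ⊥ at h0
        rw [h0, Subgroup.mem_bot] at h1
        rw [Subgroup.mem_bot]
        exact congrArg Subtype.val h1
    have hcard : τ.ncard = n := by
      rw [Set.ncard_image_of_injOn, Set.ncard_diff_singleton_of_mem hQ, hn]
      · rfl
      · intro P hP P' hP' h
        change P.subgroupOf N = P'.subgroupOf N at h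
        ext x
        constructor
        · intro hx
          have h1 : (⟨x, hle P hP.1 hx⟩ : N) ∈ P.subgroupOf N := hx
          rw [h] at h1
          exact h1
        · intro hx
          have h1 : (⟨x, hle P' hP'.1 hx⟩ : N) ∈ P'.subgroupOf N := hx
          rw [← h] at h1
          exact h1
    have hr' : i'.range = chainStabilizer τ := by
      ext x
      rw [mem_stab]
      constructor
      · rintro ⟨y, rfl⟩
        rintro _ ⟨P, hP, rfl⟩
        have h1 : i y ∈ chainStabilizer σ := by
          rw [← hr]
          exact ⟨y, rfl⟩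
        exact (norm_sub (hle P hP.1) (i' y)).2 (mem_stab.1 h1 P hP.1)
      · intro h
        have h1 : (x : G) ∈ chainStabilizer σ := by
          rw [mem_stab]
          intro P hP
          by_cases hPQ : P = Q
          · have h2 := x.2
            rw [hPQ, ← hN]
            exact h2
          · exact (norm_sub (hle P hP) x).1 (h _ ⟨P, ⟨hP, hPQ⟩, rfl⟩)
        rw [← hr] at h1
        obtain ⟨y, hy⟩ := h1
        exact ⟨y, Subtype.ext hy⟩
    have h1 := ih N τ hτ hcard K i' hi' hr' χ hχ
    exact blk_up (hσ.isPGroup Q hQ) hN h1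

/-- `bl(χ)^G` is defined for the irreducible characters `χ` of the stabiliser of a chain -/
theorem kblk : S_KBLK := by
  intro p _ F _ _ _ red G _ _ σ χ hσ hχ
  exact kblk_aux red σ.ncard G σ hσ rfl (chainStabilizer σ) (chainStabilizer σ).subtype
    (Subgroup.subtype_injective _) (Subgroup.range_subtype _) χ hχ

end ind

end Pool.Agent.R674.KB
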