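import Pool.Agent.Y63.NV.Stm5
import Pool.Agent.Y930.NV.Cen
import Pool.Agent.Helper884.IC.Compl

/-!
# The number of irreducible characters with a given value of the reduced central character

The parts `S_KDIM` and `S_KDIMH` of `Pool/Agent/Y63/NV/Stm5.lean`: the characteristic polynomial of
multiplication with a central element on the centre of the group algebra.
-/

set_option autoImplicit false

open scoped Classical
open Polynomial (X C)

noncomputable section

namespace Pool.Agent.R674.KB

open Pool.Agent.Y63.NV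
open Pool.Agent.Y930.NV
open Pool.Agent.Y63.AWC (IsIrreducibleCharacter)
open Pool.Agent.Helper884.IC (Irr mem_Irr B IsClass)

section mat

variable {J : Type} [Group J] [Fintype J]

/-- the structure constants -/
def Nn (E : ConjClasses J) : Matrix (ConjClasses J) (ConjClasses J) ℤ :=
  fun C D => ∑ g : J, ind ℤ E g * ind ℤ D (g * C.out)

/-- the matrix of multiplication with `∑ a_E E` -/
def MA {A : Type} [CommRing A] (a : ConjClasses J → A) :
    Matrix (ConjClasses J) (ConjClasses J) A :=
  fun C D => ∑ E, a E * ((Nn E C D : ℤ) : A)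

theorem MA_map {A A' : Type} [CommRing A] [CommRing A'] (φ : A →+* A') (a : ConjClasses J → A) :
    (MA a).map φ = MA (fun E => φ (a E)) := by
  ext C D
  simp only [Matrix.map_apply, MA, map_sum, map_mul, map_intCast]

theorem ind_int (A : Type) [CommRing A] (E : ConjClasses J) (g : J) :
    ((ind ℤ E g : ℤ) : A) = ind A E g := by
  unfold ind
  split_ifs <;> simp

theorem om_shift {χ : J → ℂ} (h : IsIrreducibleCharacter χ) {f : J → ℂ} (hf : Cf f) (x : J) :
    ∑ g, f g * χ (g * x) = om χ f * χ x := by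
  obtain ⟨V, _, _, _, ρ, hr, rfl⟩ := h
  have h1 := Tp_eq ρ hr f hf
  have h2 : LinearMap.trace ℂ V (Tp ρ f * ρ x) = ∑ g : J, f g * ρ.character (g * x) := by
    unfold Tp
    rw [Finset.sum_mul, map_sum]
    refine Finset.sum_congr rfl fun g _ => ?_
    rw [smul_mul_assoc, map_smul, smul_eq_mul, ← map_mul]
    rfl
  rw [← h2, h1, smul_mul_assoc, one_mul, map_smul, smul_eq_mul]
  rfl

theorem nn_eig {χ : J → ℂ} (h : IsIrreducibleCharacter χ) (E D : ConjClasses J) :
    ∑ D', ((Nn E D D' : ℤ) : ℂ) * χ D'.out = om χ (ind ℂ E) * χ D.out := by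
  rw [← om_shift h (Cf_ind ℂ E)]
  have h1 : ∀ D', ((Nn E D D' : ℤ) : ℂ) * χ D'.out =
      ∑ g : J, ind ℂ E g * (χ D'.out * ind ℂ D' (g * D.out)) := by
    intro D'
    unfold Nn
    push_cast
    rw [Finset.sum_mul]
    refine Finset.sum_congr rfl fun g _ => ?_
    rw [ind_int, ind_int]
    ring
  rw [Finset.sum_congr rfl fun D' _ => h1 D', Finset.sum_comm]
  refine Finset.sum_congr rfl fun g _ => ?_
  rw [← Finset.mul_sum, ← Cf_expand (irr_Cf h) (g * D.out)]

/-- the character table -/
def U : Matrix (ConjClasses J) (Irr J) ℂ := fun C χ => χ.1 C.out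

/-- its inverse -/
def W : Matrix (Irr J) (ConjClasses J) ℂ := fun χ C => B (ind ℂ C) χ.1

theorem U_mul_W : (U : Matrix (ConjClasses J) (Irr J) ℂ) *
    (W : Matrix (Irr J) (ConjClasses J) ℂ) = 1 := by
  ext C D
  rw [Matrix.mul_apply]
  have h1 := congrFun (Pool.Agent.Helper884.IC.expand (ind ℂ D) (fun g y => Cf_ind ℂ D y g)) C.out
  rw [ind_out, Finset.sum_apply] at h1
  rw [Matrix.one_apply, h1, ← Finset.sum_coe_sort (Irr J)]
  refine Finset.sum_congr rfl fun χ _ => ?_
  rw [Pi.smul_apply, smul_eq_mul, mul_comm]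
  rfl

theorem W_mul_U : (W : Matrix (Irr J) (ConjClasses J) ℂ) *
    (U : Matrix (ConjClasses J) (Irr J) ℂ) = 1 := by
  ext χ ψ
  rw [Matrix.mul_apply]
  have hχ : IsIrreducibleCharacter χ.1 := mem_Irr.1 χ.2
  have hψ : IsIrreducibleCharacter ψ.1 := mem_Irr.1 ψ.2
  have h1 : ψ.1 = ∑ C : ConjClasses J, ψ.1 C.out • ind ℂ C := by
    funext x
    rw [Finset.sum_apply, Cf_expand (irr_Cf hψ) x]
    rfl
  have h2 : ∑ C : ConjClasses J, W χ C * U C ψ = B ψ.1 χ.1 := by
    conv_rhs => rw [h1]
    rw [Pool.Agent.Helper884.IC.B_sum_left]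
    refine Finset.sum_congr rfl fun C _ => ?_
    rw [Pool.Agent.Helper884.IC.B_smul_left, mul_comm]
    rfl
  rw [h2, Pool.Agent.Helper884.IC.B_irr (mem_Irr.1 ψ.2) (mem_Irr.1 χ.2), Matrix.one_apply]
  by_cases h : χ = ψ
  · rw [if_pos h, if_pos (by rw [h])]
  · rw [if_neg h, if_neg (fun h' => h (Subtype.ext h'.symm))]

theorem card_eq : Fintype.card (ConjClasses J) = Fintype.card (Irr J) := by
  have h1 := Matrix.trace_mul_comm (U : Matrix (ConjClasses J) (Irr J) ℂ)
    (W : Matrix (Irr J) (ConjClasses J) ℂ)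
  rw [U_mul_W, W_mul_U, Matrix.trace_one, Matrix.trace_one] at h1
  exact_mod_cast h1

/-- the characteristic polynomial over a polynomial ring over `ℂ` -/
theorem charpoly_complex :
    (MA (fun E : ConjClasses J => (MvPolynomial.X E : MvPolynomial (ConjClasses J) ℂ))).charpoly =
      ∏ χ : Irr J, (X - C (∑ E, MvPolynomial.X E * MvPolynomial.C (om χ.1 (ind ℂ E)))) := by
  set M := MA (fun E : ConjClasses J => (MvPolynomial.X E : MvPolynomial (ConjClasses J) ℂ))
    with hM
  let cc : ℂ →+* MvPolynomial (ConjClasses J) ℂ := MvPolynomial.C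
  let U' : Matrix (ConjClasses J) (Irr J) (MvPolynomial (ConjClasses J) ℂ) := U.map cc
  let W' : Matrix (Irr J) (ConjClasses J) (MvPolynomial (ConjClasses J) ℂ) := W.map cc
  let d : Irr J → MvPolynomial (ConjClasses J) ℂ :=
    fun χ => ∑ E, MvPolynomial.X E * MvPolynomial.C (om χ.1 (ind ℂ E))
  have h1 : U' * W' = 1 := by
    change U.map cc * W.map cc = 1
    rw [← Matrix.map_mul, U_mul_W, Matrix.map_one _ (map_zero cc) (map_one cc)]
  have h2 : W' * U' = 1 := by
    change W.map cc * U.map cc = 1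
    rw [← Matrix.map_mul, W_mul_U, Matrix.map_one _ (map_zero cc) (map_one cc)]
  have h3 : M * U' = U' * Matrix.diagonal d := by
    ext1 D χ
    rw [Matrix.mul_apply, Matrix.mul_diagonal]
    have hχ : IsIrreducibleCharacter χ.1 := mem_Irr.1 χ.2
    have e1 : ∀ D' : ConjClasses J, M D D' * U' D' χ =
        ∑ E, MvPolynomial.X E * cc (((Nn E D D' : ℤ) : ℂ) * χ.1 D'.out) := by
      intro D'
      rw [hM]
      change (∑ E, MvPolynomial.X E * ((Nn E D D' : ℤ) : MvPolynomial (ConjClasses J) ℂ)) *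
        cc (χ.1 D'.out) = _
      rw [Finset.sum_mul]
      refine Finset.sum_congr rfl fun E _ => ?_
      rw [map_mul, map_intCast, mul_assoc]
    rw [Finset.sum_congr rfl fun D' _ => e1 D', Finset.sum_comm]
    change _ = cc (χ.1 D.out) * ∑ E, MvPolynomial.X E * cc (om χ.1 (ind ℂ E))
    rw [Finset.mul_sum]
    refine Finset.sum_congr rfl fun E _ => ?_
    rw [← Finset.mul_sum, ← map_sum, nn_eig hχ, map_mul]
    ring
  have h4 : M = U' * (Matrix.diagonal d * W') := by
    rw [← Matrix.mul_assoc, ← h3, Matrix.mul_assoc, h1, Matrix.mul_one]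
  rw [h4, Matrix.charpoly_mul_comm_of_le _ _ card_eq.ge, card_eq, Nat.sub_self, pow_zero, one_mul,
    Matrix.mul_assoc, h2, Matrix.mul_one, Matrix.charpoly_diagonal]

/-- the integral central character -/
def wO (χ : Irr J) (E : ConjClasses J) : integralClosure ℤ ℂ :=
  ⟨om χ.1 (ind ℂ E), by
    rw [← ind_cast]
    exact om_int (mem_Irr.1 χ.2) (Cf_ind ℤ E)⟩

theorem charpoly_int :
    (MA (fun E : ConjClasses J =>
      (MvPolynomial.X E : MvPolynomial (ConjClasses J) (integralClosure ℤ ℂ)))).charpoly =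
      ∏ χ : Irr J, (X - C (∑ E, MvPolynomial.X E * MvPolynomial.C (wO χ E))) := by
  let ι : MvPolynomial (ConjClasses J) (integralClosure ℤ ℂ) →+* MvPolynomial (ConjClasses J) ℂ :=
    MvPolynomial.map (algebraMap (integralClosure ℤ ℂ) ℂ)
  have hι : Function.Injective ι := MvPolynomial.map_injective _ Subtype.val_injective
  apply Polynomial.map_injective ι hι
  rw [← Matrix.charpoly_map, MA_map, Polynomial.map_prod]
  have e1 : (fun E : ConjClasses J => ι (MvPolynomial.X E)) = fun E => MvPolynomial.X E := by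
    funext E
    exact MvPolynomial.map_X _ _
  rw [e1, charpoly_complex]
  refine Finset.prod_congr rfl fun χ _ => ?_
  have e4 : ι (∑ E, MvPolynomial.X E * MvPolynomial.C (wO χ E)) =
      ∑ E, MvPolynomial.X E * MvPolynomial.C (om χ.1 (ind ℂ E)) := by
    rw [map_sum]
    refine Finset.sum_congr rfl fun E _ => ?_
    rw [map_mul]
    have e2 : ι (MvPolynomial.X E) = MvPolynomial.X E := MvPolynomial.map_X _ _
    have e3 : ι (MvPolynomial.C (wO χ E)) = MvPolynomial.C (om χ.1 (ind ℂ E)) :=
      MvPolynomial.map_C _ _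
    rw [e2, e3]
  rw [Polynomial.map_sub, Polynomial.map_X, Polynomial.map_C, e4]

variable {F : Type} [Field F] (red : integralClosure ℤ ℂ →+* F)

theorem charpoly_red (f : J → F) :
    (MA (fun E : ConjClasses J => f E.out)).charpoly =
      ∏ χ : Irr J, (X - C (centralValue red χ.1 f)) := by
  let ev : MvPolynomial (ConjClasses J) (integralClosure ℤ ℂ) →+* F :=
    MvPolynomial.eval₂Hom red (fun E => f E.out)
  have h1 := congrArg (Polynomial.map ev) (charpoly_int (J := J))
  rw [← Matrix.charpoly_map, MA_map, Polynomial.map_prod] at h1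
  have e1 : (fun E : ConjClasses J => ev (MvPolynomial.X E)) = fun E => f E.out := by
    funext E
    exact MvPolynomial.eval₂Hom_X' _ _ _
  rw [e1] at h1
  rw [h1]
  refine Finset.prod_congr rfl fun χ _ => ?_
  rw [Polynomial.map_sub, Polynomial.map_X, Polynomial.map_C, map_sum,
    centralValue_eq red (mem_Irr.1 χ.2)]
  congr 2
  refine Finset.sum_congr rfl fun E _ => ?_
  rw [map_mul]
  have e2 : ev (MvPolynomial.X E) = f E.out := MvPolynomial.eval₂Hom_X' _ _ _
  have e3 : ev (MvPolynomial.C (wO χ E)) = red (wO χ E) := MvPolynomial.eval₂Hom_C _ _ _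
  rw [e2, e3]
  congr 1
  unfold R
  rw [ind_cast]
  exact (redC_of red (wO χ E).2).symm

theorem kop_app {F Γ : Type} [Field F] [Group Γ] [Finite Γ] (z : Γ → F) (S : Set Γ) (v : Γ → F)
    (x : Γ) : Kop z S v x = if x ∈ S then ∑ᶠ g : Γ, z g * v (g * x) else 0 := rfl

/-- class functions and functions on the set of classes -/
def eC : VS (F := F) (Set.univ : Set J) (⊤ : Subgroup J) ≃ₗ[F] (ConjClasses J → F) where
  toFun v := fun C => v.1 C.out
  invFun u := ⟨fun x => u (ConjClasses.mk x), fun x hx => absurd (Set.mem_univ x) hx,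
    fun j _ x => by
      change u (ConjClasses.mk (j * x * j⁻¹)) = u (ConjClasses.mk x)
      rw [mk_conj]⟩
  map_add' _ _ := rfl
  map_smul' _ _ := rfl
  left_inv v := by
    apply Subtype.ext
    funext x
    exact Cf_out (f := v.1) (fun g x => v.2.2 g trivial x) rfl
  right_inv u := by
    funext C
    change u (ConjClasses.mk C.out) = u C
    rw [mk_out]

theorem kop_univ_mem {f : J → F} (hf : IsClassFun f) :
    ∀ v ∈ VS (F := F) (Set.univ : Set J) (⊤ : Subgroup J),
      Kop f Set.univ v ∈ VS (F := F) (Set.univ : Set J) (⊤ : Subgroup J) := by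
  intro v hv
  refine ⟨fun x hx => absurd (Set.mem_univ x) hx, ?_⟩
  intro h _ x
  rw [kop_app, kop_app, if_pos (Set.mem_univ _), if_pos (Set.mem_univ _),
    ← finsum_comp_equiv (MulAut.conj h).toEquiv]
  refine finsum_congr fun g => ?_
  change f (h * g * h⁻¹) * v (h * g * h⁻¹ * (h * x * h⁻¹)) = _
  have h1 : h * g * h⁻¹ * (h * x * h⁻¹) = h * (g * x) * h⁻¹ := by group
  rw [hf h, h1, hv.2 h trivial]

theorem gk_eq (f : J → F) (hf : IsClassFun f) (c : F) :
    gk f Set.univ (⊤ : Subgroup J) c =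
      (MA (fun E : ConjClasses J => f E.out)).charpoly.rootMultiplicity c := by
  set V := VS (F := F) (Set.univ : Set J) (⊤ : Subgroup J) with hV
  let T : Module.End F V := (Kop f Set.univ).restrict (kop_univ_mem hf)
  have h1 : Module.finrank F ↥(V ⊓ (Kop f Set.univ).maxGenEigenspace c) =
      Module.finrank F (T.maxGenEigenspace c) := by
    have h2 : T.maxGenEigenspace c =
        Submodule.comap V.subtype ((Kop f Set.univ).maxGenEigenspace c) :=
      Module.End.genEigenspace_restrict _ _ _ _ _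
    rw [h2, ← Submodule.finrank_map_subtype_eq, Submodule.map_comap_subtype]
  unfold gk
  rw [← hV, h1, LinearMap.finrank_maxGenEigenspace_eq]
  congr 1
  let b : Module.Basis (ConjClasses J) F V := (Pi.basisFun F (ConjClasses J)).map eC.symm
  rw [← LinearMap.charpoly_toMatrix T b]
  congr 1
  ext D D'
  rw [LinearMap.toMatrix_apply]
  have e1 : b.repr (T (b D')) D = eC (T (eC.symm (Pi.single D' 1))) D := by
    simp only [b, Module.Basis.map_apply, Module.Basis.map_repr, LinearEquiv.symm_symm,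
      LinearEquiv.trans_apply, Pi.basisFun_apply, Pi.basisFun_repr]
  have e0 : eC (T (eC.symm (Pi.single D' 1))) D =
      Kop f Set.univ (eC.symm (Pi.single D' 1)).1 D.out := rfl
  rw [e1, e0, kop_app, if_pos (Set.mem_univ _), finsum_eq_sum_of_fintype]
  change ∑ g : J, f g * (Pi.single D' 1 : ConjClasses J → F) (ConjClasses.mk (g * D.out)) = _
  unfold MA Nn
  have e2 : ∀ E : ConjClasses J, f E.out *
      (((∑ g : J, ind ℤ E g * ind ℤ D' (g * D.out) : ℤ)) : F) =
      ∑ g : J, (f E.out * ind F E g) * ind F D' (g * D.out) := by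
    intro E
    push_cast
    rw [Finset.mul_sum]
    refine Finset.sum_congr rfl fun g _ => ?_
    rw [ind_int, ind_int]
    ring
  rw [Finset.sum_congr rfl fun E _ => e2 E, Finset.sum_comm]
  refine Finset.sum_congr rfl fun g _ => ?_
  rw [← Finset.sum_mul, ← Cf_expand (f := f) (fun g x => hf g x) g]
  congr 1
  unfold ind
  rw [Pi.single_apply]

end mat

theorem kdim : S_KDIM := by
  intro p _ F _ _ _ red J _ _ f c hf
  have : Fintype J := Fintype.ofFinite J
  rw [gk_eq f hf c, charpoly_red red f]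
  unfold Knum
  rw [← Polynomial.count_roots]
  have h1 : (∏ χ : Irr J, (X - C (centralValue red χ.1 f))).roots =
      (Finset.univ : Finset (Irr J)).val.map (fun χ => centralValue red χ.1 f) := by
    have h2 := Polynomial.roots_multiset_prod_X_sub_C
      ((Finset.univ : Finset (Irr J)).val.map (fun χ => centralValue red χ.1 f))
    rw [Multiset.map_map] at h2
    exact h2
  rw [h1, Multiset.count_map]
  rw [← Finset.filter_val, Finset.card_val, ← Fintype.card_subtype, ← Nat.card_eq_fintype_card]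
  refine Nat.card_congr
    { toFun := fun χ => ⟨⟨χ.1, mem_Irr.2 χ.2.1⟩, χ.2.2.symm⟩
      invFun := fun χ => ⟨χ.1.1, mem_Irr.1 χ.1.2, χ.2.symm⟩
      left_inv := fun χ => rfl
      right_inv := fun χ => rfl }

/-- invariance of the multiplicities of eigenvalues -/
theorem finrank_eq' {F E E' : Type} [Field F] [AddCommGroup E] [Module F E] [AddCommGroup E']
    [Module F E'] (T : Module.End F E) (T₂ : Module.End F E') (π : E →ₗ[F] E')
    (V : Submodule F E) (V₂ : Submodule F E') (hT : ∀ v ∈ V, T v ∈ V)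
    (hπ : ∀ v ∈ V, π v ∈ V₂) (hs : ∀ w ∈ V₂, ∃ v ∈ V, π v = w) (hk : ∀ v ∈ V, π v = 0 → v = 0)
    (hc : ∀ v ∈ V, π (T v) = T₂ (π v)) (c : F) :
    Module.finrank F ↥(V ⊓ T.maxGenEigenspace c) =
      Module.finrank F ↥(V₂ ⊓ T₂.maxGenEigenspace c) := by
  have hit : ∀ (k : ℕ) (v : E), v ∈ V → ((T - c • (1 : Module.End F E)) ^ k) v ∈ V ∧
      π (((T - c • (1 : Module.End F E)) ^ k) v) =
        ((T₂ - c • (1 : Module.End F E')) ^ k) (π v) := by
    intro k
    induction k with
    | zero => intro v hv; simpa using hv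
    | succ k ih =>
      intro v hv
      have h1 : (T - c • (1 : Module.End F E)) v ∈ V := by
        rw [LinearMap.sub_apply, LinearMap.smul_apply, Module.End.one_apply]
        exact V.sub_mem (hT v hv) (V.smul_mem c hv)
      have h2 : π ((T - c • (1 : Module.End F E)) v) =
          (T₂ - c • (1 : Module.End F E')) (π v) := by
        rw [LinearMap.sub_apply, LinearMap.smul_apply, Module.End.one_apply, LinearMap.sub_apply,
          LinearMap.smul_apply, Module.End.one_apply, map_sub, map_smul, hc v hv]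
      rw [pow_succ, pow_succ, Module.End.mul_apply, Module.End.mul_apply, ← h2]
      exact ih _ h1
  have hmap : (V ⊓ T.maxGenEigenspace c).map π = V₂ ⊓ T₂.maxGenEigenspace c := by
    apply le_antisymm
    · rintro _ ⟨v, hv, rfl⟩
      obtain ⟨hv1, hv2⟩ := Submodule.mem_inf.1 hv
      refine Submodule.mem_inf.2 ⟨hπ v hv1, ?_⟩
      rw [Module.End.mem_maxGenEigenspace] at hv2 ⊢
      obtain ⟨k, hk⟩ := hv2
      refine ⟨k, ?_⟩
      rw [← (hit k v hv1).2, hk, map_zero]
    · intro w hw
      obtain ⟨hw1, hw2⟩ := Submodule.mem_inf.1 hw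
      obtain ⟨v, hv, rfl⟩ := hs w hw1
      refine ⟨v, Submodule.mem_inf.2 ⟨hv, ?_⟩, rfl⟩
      rw [Module.End.mem_maxGenEigenspace] at hw2 ⊢
      obtain ⟨k, hk'⟩ := hw2
      refine ⟨k, hk _ (hit k v hv).1 ?_⟩
      rw [(hit k v hv).2, hk']
  have hinj : Function.Injective (π.domRestrict (V ⊓ T.maxGenEigenspace c)) := by
    rw [injective_iff_map_eq_zero]
    rintro ⟨v, hv⟩ h0
    rw [Subtype.ext_iff]
    exact hk v (Submodule.mem_inf.1 hv).1 h0
  rw [← hmap, ← LinearMap.range_domRestrict]
  exact (LinearEquiv.ofInjective _ hinj).finrank_eq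

/-- extension by zero -/
def extZ {F Γ : Type} [Field F] [Group Γ] (H : Subgroup Γ) : (H → F) →ₗ[F] (Γ → F) where
  toFun v := fun x => if h : x ∈ H then v ⟨x, h⟩ else 0
  map_add' a b := by
    funext x
    by_cases hx : x ∈ H <;> simp [hx]
  map_smul' c a := by
    funext x
    by_cases hx : x ∈ H <;> simp [hx]

theorem extZ_mem {F Γ : Type} [Field F] [Group Γ] {H : Subgroup Γ} (v : H → F) (x : H) :
    extZ H v x = v x := dif_pos x.2

theorem extZ_not {F Γ : Type} [Field F] [Group Γ] {H : Subgroup Γ} (v : H → F) {x : Γ}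
    (hx : x ∉ H) : extZ H v x = 0 := dif_neg hx

theorem kdimh : S_KDIMH := by
  intro p _ F _ _ _ red Γ _ _ H z c hz hs
  have hcl : IsClassFun (fun x : H => z x) := fun g x => hz g g.2 x
  rw [kdim p F red H (fun x : H => z x) c hcl]
  unfold gk
  refine finrank_eq' _ _ (extZ H) _ _ ?_ ?_ ?_ ?_ ?_ c
  · have : Fintype H := Fintype.ofFinite H
    exact kop_univ_mem hcl
  · intro v hv
    refine ⟨fun x hx => extZ_not v hx, fun h hh x => ?_⟩
    by_cases hx : x ∈ H
    · have hx' : h * x * h⁻¹ ∈ H := H.mul_mem (H.mul_mem hh hx) (H.inv_mem hh)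
      have e1 := extZ_mem v ⟨_, hx'⟩
      have e2 := extZ_mem v ⟨_, hx⟩
      change extZ H v (h * x * h⁻¹) = _ at e1
      change extZ H v x = _ at e2
      rw [e1, e2]
      exact hv.2 ⟨h, hh⟩ trivial ⟨x, hx⟩
    · have hx' : h * x * h⁻¹ ∉ H := by
        intro hx'
        apply hx
        have h1 := H.mul_mem (H.mul_mem (H.inv_mem hh) hx') hh
        have e : h⁻¹ * (h * x * h⁻¹) * h = x := by group
        rwa [e] at h1
      rw [extZ_not v hx, extZ_not v hx']
  · intro w hw
    refine ⟨fun x => w x, ⟨fun x hx => absurd (Set.mem_univ x) hx,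
      fun j _ x => hw.2 j j.2 x⟩, ?_⟩
    funext x
    by_cases hx : x ∈ H
    · exact extZ_mem _ ⟨x, hx⟩
    · rw [extZ_not _ hx, hw.1 x hx]
  · intro v _ h0
    funext x
    have h1 := congrFun h0 x
    rw [extZ_mem] at h1
    exact h1
  · intro v _
    funext x
    by_cases hx : x ∈ H
    · have e1 := extZ_mem (Kop (fun x : H => z x) Set.univ v) ⟨x, hx⟩
      change extZ H (Kop (fun x : H => z x) Set.univ v) x = _ at e1
      rw [e1]
      rw [kop_app, kop_app, if_pos (Set.mem_univ _), if_pos (show x ∈ (H : Set Γ) from hx)]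
      have e2 : ∀ g : H, z g * v (g * ⟨x, hx⟩) = z g * extZ H v ((g : Γ) * x) := by
        intro g
        have e3 := extZ_mem v (g * (⟨x, hx⟩ : H))
        change extZ H v ((g : Γ) * x) = _ at e3
        rw [e3]
      rw [finsum_congr e2]
      have e4 : ∑ᶠ g : Γ, z g * extZ H v (g * x) =
          ∑ᶠ (g : Γ) (_ : g ∈ (H : Set Γ)), z g * extZ H v (g * x) := by
        refine finsum_congr fun g => ?_
        by_cases hg : g ∈ (H : Set Γ)
        · simp [hg]
        · have h5 : z g = 0 := hs g hg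
          simp [h5]
      rw [e4]
      exact finsum_set_coe_eq_finsum_mem (f := fun g : Γ => z g * extZ H v (g * x)) (H : Set Γ)
    · rw [extZ_not _ hx, kop_app, if_neg (show ¬ x ∈ (H : Set Γ) from hx)]

end Pool.Agent.R674.KB
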