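import Pool.Agent.Y63.NV.Kalt
import Pool.Agent.Y171.NV.Kfin
import Pool.Agent.R674.KB.Filt
import Pool.Agent.R674.KB.Blk
import Pool.Agent.R674.KB.Kdim

/-!
# The blockwise Knörr-Robinson conjecture
-/

set_option autoImplicit false

open scoped Classical

noncomputable section

namespace Pool.Agent.R674.KB

open Pool.Agent.Y63.NV
open Pool.Agent.Y63.KR

theorem kfin' : S_KFIN := Pool.Agent.Y171.NV.kfin kblk

theorem krb_main {p : ℕ} [Fact p.Prime] {F : Type} [Field F] [IsAlgClosed F] [CharP F p]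
    (red : integralClosure ℤ ℂ →+* F) (X : ∀ (H : Type) [Group H], Prop) (hX : Closed p X) :
    (∀ (H : Type) [Group H] [Finite H], X H → Reduced p H → KRB p red H) ↔
    ∀ (Γ : Type) [Group Γ] [Finite Γ] (G : Subgroup Γ) [G.Normal], X G → IsPGroup p (Γ ⧸ G) →
      KRB p red Γ :=
  krb_strong kdimh kfilt kfin' red X hX

end Pool.Agent.R674.KB
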