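import Pool.Agent.Y925.NV.Grp
import Pool.Agent.Y63.NV.Krc
import Pool.Agent.R674.KB.Main

/-!
# Blocks of defect zero

The block of a character of defect zero contains no other character and is not induced from the
stabiliser of a nonempty chain.
-/

set_option autoImplicit false

open scoped Classical

noncomputable section

namespace Pool.Agent.R674.KB

open Pool.Agent.Y63.NV
open Pool.Agent.Y63.KR
open Pool.Agent.Y930.NV
open Pool.Agent.Y925.NV (kk kk_conj md md_spec dz_iff red_zero redC_nat int_nat chi_int om_ind_int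
  R_ind)
open Pool.Agent.Y63.AWC (IsIrreducibleCharacter)
open Pool.Agent.Helper884.IC (Irr mem_Irr)

section

variable {p : ℕ} [Fact p.Prime] {F : Type} [Field F] [CharP F p]
  (red : integralClosure ℤ ℂ →+* F) {G : Type} [Group G] [Fintype G]

theorem om_inv {ψ χ : G → ℂ} (hψ : IsIrreducibleCharacter ψ) (hχ : IsIrreducibleCharacter χ) :
    om ψ (fun g => χ g⁻¹) = if ψ = χ then (md χ : ℂ) else 0 := by
  have h1 := Pool.Agent.Helper884.IC.B_irr hψ hχ
  unfold Pool.Agent.Helper884.IC.B at h1
  have h2 : (Nat.card G : ℂ) ≠ 0 := by exact_mod_cast Nat.card_pos.ne'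
  have h3 : ∑ g : G, ψ g * χ g⁻¹ = (Nat.card G : ℂ) * (if ψ = χ then 1 else 0) := by
    rw [← h1, ← mul_assoc, mul_inv_cancel₀ h2, one_mul]
  unfold om
  have h4 : ∑ g : G, χ g⁻¹ * ψ g = ∑ g : G, ψ g * χ g⁻¹ :=
    Finset.sum_congr rfl fun g _ => mul_comm _ _
  rw [h4, h3]
  by_cases h : ψ = χ
  · rw [if_pos h, if_pos h, mul_one, h, div_eq_iff (irr_one_ne hχ), md_spec hχ]
  · rw [if_neg h, if_neg h, mul_zero, zero_div]

/-- the reduction of the orthogonality relation -/
theorem sum_red {ψ χ : G → ℂ} (hψ : IsIrreducibleCharacter ψ) (hχ : IsIrreducibleCharacter χ) :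
    ∑ C : ConjClasses G, redC red (χ C.out⁻¹) * R red ψ (ind ℤ C) =
      if ψ = χ then (md χ : F) else 0 := by
  have hcf : Cf (fun g => χ g⁻¹) := by
    intro g x
    have e : (g * x * g⁻¹)⁻¹ = g * x⁻¹ * g⁻¹ := by group
    change χ (g * x * g⁻¹)⁻¹ = χ x⁻¹
    rw [e, irr_Cf hχ]
  have h1 : om ψ (fun g => χ g⁻¹) = ∑ C : ConjClasses G, χ C.out⁻¹ * om ψ (ind ℂ C) := by
    have h2 : (fun g => χ g⁻¹) = fun g => ∑ C : ConjClasses G, χ C.out⁻¹ * ind ℂ C g := by
      funext g
      exact Cf_expand hcf g
    rw [h2]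
    exact om_sum ψ Finset.univ (fun C : ConjClasses G => χ C.out⁻¹) (fun C => ind ℂ C)
  have h3 := congrArg (redC red) h1
  rw [redC_sum red _ _ (fun C _ => (chi_int hχ _).mul (om_ind_int hψ C)), om_inv hψ hχ] at h3
  have h4 : redC red (if ψ = χ then (md χ : ℂ) else 0) = if ψ = χ then (md χ : F) else 0 := by
    split_ifs
    · exact redC_nat red _
    · exact redC_zero red
  rw [← h4, h3]
  refine Finset.sum_congr rfl fun C _ => ?_
  rw [redC_mul red (chi_int hχ _) (om_ind_int hψ C), R_ind]

theorem kk_inv (x : G) : kk x⁻¹ = kk x := by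
  unfold kk
  refine Nat.card_congr (Equiv.subtypeEquivRight fun n => ?_)
  have e : n * x⁻¹ * n⁻¹ = (n * x * n⁻¹)⁻¹ := by group
  rw [e, inv_inj]

theorem isClassFun_ind (C : ConjClasses G) : IsClassFun (ind F C) := fun g x => Cf_ind F C g x

theorem cval_ind {χ : G → ℂ} (hχ : IsIrreducibleCharacter χ) (C : ConjClasses G) :
    centralValue red χ (ind F C) = R red χ (ind ℤ C) := by
  rw [centralValue_eq red hχ, Finset.sum_eq_single C]
  · rw [ind_out, if_pos rfl, one_mul]
  · intro D _ hD
    rw [ind_out, if_neg hD, zero_mul]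
  · intro h
    exact absurd (Finset.mem_univ _) h

variable {χ : G → ℂ}

theorem wt_md (hχ : IsWt p (⊥ : Subgroup G) χ) : (md χ : F) ≠ 0 := by
  obtain ⟨n, hn, h1⟩ := hχ.defectZero
  rw [Subgroup.card_bot, Nat.factorization_one, Finsupp.zero_apply, add_zero] at h1
  have h2 := (dz_iff (p := p) hχ.irr).1 ⟨n, hn, h1⟩
  rwa [ne_eq, CharP.cast_eq_zero_iff F p]

/-- a character in the block of a character of defect zero -/
theorem dz_unique (hχ : IsWt p (⊥ : Subgroup G) χ) {ψ : G → ℂ} (hψ : IsIrreducibleCharacter ψ)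
    (h : ∀ f : G → F, IsClassFun f → centralValue red ψ f = centralValue red χ f) : ψ = χ := by
  by_contra hne
  have h1 := sum_red red hψ hχ.irr
  rw [if_neg hne] at h1
  have h2 := sum_red red hχ.irr hχ.irr
  rw [if_pos rfl] at h2
  have h3 : ∀ C : ConjClasses G, R red ψ (ind ℤ C) = R red χ (ind ℤ C) := by
    intro C
    rw [← cval_ind red hψ, ← cval_ind red hχ.irr]
    exact h _ (isClassFun_ind C)
  simp only [h3] at h1
  rw [h1] at h2
  exact wt_md (F := F) hχ h2.symm

/-- a class of defect zero on which the central character does not vanish -/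
theorem dz_class (hχ : IsWt p (⊥ : Subgroup G) χ) :
    ∃ C : ConjClasses G, ¬ p ∣ kk C.out ∧ R red χ (ind ℤ C) ≠ 0 := by
  by_contra hcon
  push Not at hcon
  have h2 := sum_red red hχ.irr hχ.irr
  rw [if_pos rfl, Finset.sum_eq_zero] at h2
  · exact wt_md (F := F) hχ h2.symm
  · intro C _
    by_cases hC : p ∣ kk C.out
    · have h3 : (kk C.out⁻¹ : F) = 0 := by
        rw [kk_inv]
        exact (CharP.cast_eq_zero_iff F p _).2 hC
      rw [red_zero red hχ.irr (wt_md (F := F) hχ) h3, zero_mul]
    · rw [hcon C hC, mul_zero]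

/-- the block of a character of defect zero is not induced from the stabiliser of a nonempty
chain -/
theorem dz_chain (hχ : IsWt p (⊥ : Subgroup G) χ) {σ : Set (Subgroup G)} (hσ : IsPChain p σ)
    (hne : σ.Nonempty) {ϑ : chainStabilizer σ → ℂ} (hϑ : IsIrreducibleCharacter ϑ)
    (h : ∀ f : G → F, IsClassFun f →
      centralValue red ϑ (fun x => f x) = centralValue red χ f) : False := by
  obtain ⟨C, hC, hR⟩ := dz_class (F := F) red hχ
  obtain ⟨P, hP, hmin⟩ := exists_least hσ.chain hne
  have hle : P ≤ chainStabilizer σ := by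
    intro x hx
    rw [mem_chainStabilizer]
    intro Q hQ
    rw [conjSub_eq_iff]
    exact Subgroup.le_normalizer (hmin Q hQ hx)
  have hn : (P.subgroupOf (chainStabilizer σ)).Normal := by
    constructor
    intro x hx y
    rw [Subgroup.mem_subgroupOf] at hx ⊢
    have h1 : conjSub (y : G) P = P := mem_chainStabilizer.mp y.2 P hP
    have h2 := conj_mem_conjSub (g := (y : G)) hx
    rw [h1] at h2
    exact h2
  have hcl : IsClassFun (fun x : chainStabilizer σ => ind F C (x : G)) :=
    fun g x => isClassFun_ind C g x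
  have h1 := blk_zero (Q := P.subgroupOf (chainStabilizer σ)) (hσ.isPGroup P hP).comap_subtype
    (cvh F red (chainStabilizer σ) ϑ hϑ) hcl ?_
  · rw [h _ (isClassFun_ind C), cval_ind red hχ.irr] at h1
    exact hR h1
  · intro x hx
    rw [Subgroup.mem_centralizer_iff] at hx
    change ind F C (x : G) = 0
    unfold ind
    rw [if_neg]
    intro hxC
    apply hC
    have h2 : kk C.out = kk (x : G) :=
      Cf_out (A := ℕ) (fun g y => kk_conj g y) hxC
    rw [h2]
    -- `P` centralises `x`
    have hPx : ∀ y ∈ P, y * (x : G) = x * y := by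
      intro y hy
      exact congrArg Subtype.val (hx ⟨y, hle hy⟩ (Subgroup.mem_subgroupOf.2 hy))
    have h3 : P ≤ Subgroup.centralizer ({(x : G)} : Set G) := by
      intro y hy
      rw [Subgroup.mem_centralizer_singleton_iff]
      exact hPx y hy
    have h4 : kk (x : G) = Nat.card (Subgroup.centralizer ({(x : G)} : Set G)) := by
      unfold kk
      refine Nat.card_congr (Equiv.subtypeEquivRight fun n => ?_)
      rw [Subgroup.mem_centralizer_singleton_iff, mul_inv_eq_iff_eq_mul]
    rw [h4]
    refine dvd_trans ?_ (Subgroup.card_dvd_of_le h3)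
    obtain ⟨k, hk⟩ := IsPGroup.iff_card.1 (hσ.isPGroup P hP)
    rw [hk]
    refine dvd_pow_self p ?_
    rintro rfl
    rw [pow_zero] at hk
    exact hσ.ne_bot P hP (Subgroup.card_eq_one.1 hk)

theorem ind_top {B : (G → F) → F}
    (hB : ∀ f : G → F, IsClassFun f → centralValue red χ f = B f)
    (hχ : IsWt p (⊥ : Subgroup G) χ) {H : Subgroup G} (hH : H = ⊤) :
    numIrrInd red H B = 1 := by
  subst hH
  let e : (⊤ : Subgroup G) ≃* G := Subgroup.topEquiv
  have hval : ∀ χ' : G → ℂ, IsIrreducibleCharacter χ' → ∀ z : G → F, IsClassFun z →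
      centralValue red (fun x => χ' (e x)) (fun x : (⊤ : Subgroup G) => z x) =
        centralValue red χ' z := fun χ' hχ' z hz =>
    Pool.Agent.Y286.NV.centralValue_comp red e χ' (Pool.Agent.Y286.NV.irr_class hχ') z hz
  unfold numIrrInd
  rw [Nat.card_eq_one_iff_exists]
  refine ⟨⟨fun x => χ (e x), Pool.Agent.Y63.AWC.irr_comp e hχ.irr, fun f hf => ?_⟩, ?_⟩
  · rw [hval χ hχ.irr f hf, hB f hf]
  · rintro ⟨ψ, hψ, hψB⟩
    apply Subtype.ext
    have h1 : IsIrreducibleCharacter (fun x => ψ (e.symm x)) :=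
      Pool.Agent.Y63.AWC.irr_comp e.symm hψ
    have h2 : (fun x : G => ψ (e.symm x)) = χ := by
      refine dz_unique (F := F) red hχ h1 fun f hf => ?_
      rw [← hval _ h1 f hf, hB f hf, ← hψB f hf]
      congr 1
    have h3 : ψ = fun x => χ (e x) := by
      rw [← h2]
      funext x
      change ψ x = ψ (e.symm (e x))
      rw [e.symm_apply_apply]
    exact h3

/-- the alternating sum for a block of defect zero -/
theorem dz_alt {B : (G → F) → F}
    (hB : ∀ f : G → F, IsClassFun f → centralValue red χ f = B f)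
    (hχ : IsWt p (⊥ : Subgroup G) χ) :
    alternatingSum p G (fun H => (numIrrInd red H B : ℤ)) = numDzBlock p red B := by
  have h1 : numDzBlock p red B = 1 := by
    unfold numDzBlock
    rw [Nat.card_eq_one_iff_exists]
    refine ⟨⟨χ, hχ, hB⟩, ?_⟩
    rintro ⟨ψ, hψ, hψB⟩
    apply Subtype.ext
    exact dz_unique (F := F) red hχ hψ.irr fun f hf => by rw [hψB f hf, hB f hf]
  rw [h1]
  unfold alternatingSum
  rw [finsum_eq_single _ (Quotient.mk (chainSetoid p G) ⟨∅, empty_chain⟩)]
  · have h2 : (Quotient.mk (chainSetoid p G) ⟨∅, empty_chain⟩).out.1 = ∅ := by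
      obtain ⟨g, hg⟩ := Quotient.mk_out (s := chainSetoid p G) ⟨∅, empty_chain⟩
      change (∅ : Set (Subgroup G)) = _ at hg
      exact Set.image_eq_empty.1 hg.symm
    rw [h2, Set.ncard_empty, pow_zero, one_mul]
    have h3 := ind_top red hB hχ (chainStabilizer_empty (Γ := G))
    change ((numIrrInd red (chainStabilizer (∅ : Set (Subgroup G))) B : ℕ) : ℤ) = (1 : ℕ)
    rw [h3]
  · intro c hc
    have hne : c.out.1.Nonempty := by
      rw [Set.nonempty_iff_ne_empty]
      intro h
      apply hc
      rw [← Quotient.out_eq c]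
      congr 1
      exact Subtype.ext h
    have h2 : numIrrInd red (chainStabilizer c.out.1) B = 0 := by
      unfold numIrrInd
      rw [Nat.card_eq_zero]
      left
      constructor
      rintro ⟨ϑ, hϑ, hϑB⟩
      exact dz_chain (F := F) red hχ c.out.2 hne hϑ fun f hf => by rw [hϑB f hf, hB f hf]
    change (-1) ^ c.out.1.ncard * ((numIrrInd red (chainStabilizer c.out.1) B : ℕ) : ℤ) = 0
    rw [h2, Nat.cast_zero, mul_zero]

end

/-- The identity of Knörr and Robinson for all blocks with nontrivial defect groups: a block has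
nontrivial defect groups if it contains no irreducible character of defect zero. -/
def KRQ (p : ℕ) {F : Type} [Field F] (red : integralClosure ℤ ℂ →+* F) (G : Type) [Group G] :
    Prop :=
  ∀ B : (G → F) → F, IsBlock B →
    (∀ χ : G → ℂ, IsWt p (⊥ : Subgroup G) χ →
      ¬ ∀ f : G → F, IsClassFun f → centralValue red χ f = B f) →
    alternatingSum p G (fun H => (numIrrInd red H B : ℤ)) = 0

theorem krq_iff {p : ℕ} [Fact p.Prime] {F : Type} [Field F] [CharP F p]
    (red : integralClosure ℤ ℂ →+* F) (G : Type) [Group G] [Finite G] :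
    KRQ p red G ↔ KRB p red G := by
  have : Fintype G := Fintype.ofFinite G
  constructor
  · intro h B hB
    by_cases h1 : ∃ χ : G → ℂ, IsWt p (⊥ : Subgroup G) χ ∧
        ∀ f : G → F, IsClassFun f → centralValue red χ f = B f
    · obtain ⟨χ, hχ, hχB⟩ := h1
      exact dz_alt red hχB hχ
    · push Not at h1
      rw [h B hB (fun χ hχ hcon => by
        obtain ⟨f, hf, hne⟩ := h1 χ hχ
        exact hne (hcon f hf))]
      symm
      have h2 : numDzBlock p red B = 0 := by
        unfold numDzBlock
        rw [Nat.card_eq_zero]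
        left
        constructor
        rintro ⟨χ, hχ, hχB⟩
        obtain ⟨f, hf, hne⟩ := h1 χ hχ
        exact hne (hχB f hf)
      rw [h2]
      rfl
  · intro h B hB hz
    rw [h B hB]
    have h2 : numDzBlock p red B = 0 := by
      unfold numDzBlock
      rw [Nat.card_eq_zero]
      left
      constructor
      rintro ⟨χ, hχ, hχB⟩
      exact hz χ hχ hχB
    rw [h2]
    rfl

end Pool.Agent.R674.KB
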