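import Pool.Agent.R674.KB.Dz

/-!
# The identity of Knörr and Robinson, the blockwise weight conjecture and extensions by `p`-groups
-/

set_option autoImplicit false

open scoped Classical

noncomputable section

namespace Pool.Agent.R674.KB

open Pool.Agent.Y63.NV
open Pool.Agent.Y63.KR

section

variable {p : ℕ} [Fact p.Prime] {F : Type} [Field F] [IsAlgClosed F] [CharP F p]
  (red : integralClosure ℤ ℂ →+* F) (X : ∀ (H : Type) [Group H], Prop)

theorem navarro_of_krb (hX : Closed p X)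
    (h : ∀ (H : Type) [Group H] [Finite H], X H → Reduced p H → KRB p red H)
    (Γ : Type) [Group Γ] [Finite Γ] (hΓ : XP p X Γ) : Navarro p red (⊤ : Subgroup Γ) := by
  refine bawc_reduction' red X hX ?_ (Nat.card Γ) Γ le_rfl hΓ
  intro H _ _ hH hR hsmall
  refine bawc_of_krb kdimh kfilt kfin' red (fun σ hσ hne => ?_) (h H hH hR)
  have hXP : XP p X (chainStabilizer σ) :=
    (xp_closed p X hX).sub H ⟨⊤, inferInstance,
      hX.iso _ _ hH ⟨Subgroup.topEquiv.symm⟩, pgroup_top p H⟩ _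
  exact hsmall (chainStabilizer σ) hXP (stab_lt hR.radical hσ hne)

theorem krb_of_navarro (hX : Closed p X)
    (h : ∀ (Γ : Type) [Group Γ] [Finite Γ], XP p X Γ → Navarro p red (⊤ : Subgroup Γ))
    (Γ : Type) [Group Γ] [Finite Γ] (hΓ : XP p X Γ) : KRB p red Γ :=
  krb_of_bawc kdimh kfilt kfin' red fun σ _ =>
    h (chainStabilizer σ) ((xp_closed p X hX).sub Γ hΓ _)

theorem tfae_main (hX : Closed p X) :
    List.TFAE [
      ∀ (H : Type) [Group H] [Finite H], X H → Reduced p H → KRQ p red H,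
      ∀ (H : Type) [Group H] [Finite H], X H → Reduced p H → BAWC p red H,
      ∀ (Γ : Type) [Group Γ] [Finite Γ] (G : Subgroup Γ) [G.Normal], X G → IsPGroup p (Γ ⧸ G) →
        KRQ p red Γ,
      ∀ (Γ : Type) [Group Γ] [Finite Γ] (G : Subgroup Γ) [G.Normal], X G → IsPGroup p (Γ ⧸ G) →
        BAWC p red Γ] := by
  tfae_have 1 → 4 := by
    intro h Γ _ _ G hG hXG hp
    rw [bawc_iff]
    exact navarro_of_krb red X hX (fun H _ _ hH hR => (krq_iff red H).1 (h H hH hR)) Γ
      ⟨G, hG, hXG, hp⟩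
  tfae_have 4 → 3 := by
    intro h Γ _ _ G hG hXG hp
    rw [krq_iff]
    refine krb_of_navarro red X hX (fun Δ _ _ hΔ => ?_) Γ ⟨G, hG, hXG, hp⟩
    obtain ⟨K, hK, hXK, hpK⟩ := hΔ
    exact (bawc_iff p red).1 (h Δ K hXK hpK)
  tfae_have 3 → 1 := by
    intro h H _ _ hH _
    exact h H ⊤ (hX.iso _ _ hH ⟨Subgroup.topEquiv.symm⟩) (pgroup_top p H)
  tfae_have 2 → 4 := (bawc_strong red X hX).1
  tfae_have 4 → 2 := (bawc_strong red X hX).2
  tfae_finish

end

end Pool.Agent.R674.KB
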